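import Pool.Agent.H98.EX.KTargets

/-!
# Row FCX of the board exa_modules: the criterion (copy of Pool.Agent.H49.CE.FCR with a free unit)
-/

set_option autoImplicit false

open MeasureTheory ProbabilityTheory Filter Topology
open scoped ENNReal
open Pool.Agent.H95 Pool.Agent.H95.Cop Pool.Agent.H96.Cop Pool.Agent.H99.CE
open Pool.Agent.H98.EX

namespace Pool.Agent.H85.EX

private theorem sum_gap {s : ℝ} (hs : 0 < s) (n : ℕ) :
    ∑ D ∈ Finset.Icc 1 n, ((max (D - 1) 1 : ℕ) : ℝ) ^ (-(1 + s)) ≤ 2 + 1 / s := by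
  have hnn : ∀ D : ℕ, 0 ≤ ((max (D - 1) 1 : ℕ) : ℝ) ^ (-(1 + s)) := fun D =>
    Real.rpow_nonneg (Nat.cast_nonneg _) _
  have hind : ∀ n : ℕ, ∑ D ∈ Finset.Icc 1 (n + 2), ((max (D - 1) 1 : ℕ) : ℝ) ^ (-(1 + s)) =
      2 + ∑ j ∈ Finset.Ico 1 (n + 1), ((j : ℝ) + 1) ^ (-(1 + s)) := by
    intro n
    induction n with
    | zero =>
      have h1 : Finset.Icc 1 (0 + 2) = {1, 2} := by decide
      rw [h1, Finset.sum_pair (by norm_num)]
      simp
      norm_num
    | succ n ih =>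
      rw [show n + 1 + 2 = (n + 2) + 1 by ring, Finset.sum_Icc_succ_top (by omega), ih,
        Finset.sum_Ico_succ_top (by omega : 1 ≤ n + 1)]
      have h2 : (max (n + 2 + 1 - 1) 1 : ℕ) = n + 1 + 1 := by omega
      rw [h2]
      push_cast
      ring
  have h3 := sum_pow_up hs (k := 1) (N := n + 1) le_rfl (by omega)
  have h4 : (((1 : ℕ) : ℝ) ^ (-s) - ((n + 1 : ℕ) : ℝ) ^ (-s)) / s ≤ 1 / s := by
    apply div_le_div_of_nonneg_right _ hs.le
    rw [Nat.cast_one, Real.one_rpow]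
    have : 0 ≤ ((n + 1 : ℕ) : ℝ) ^ (-s) := Real.rpow_nonneg (Nat.cast_nonneg _) _
    linarith
  have h5 : ∑ D ∈ Finset.Icc 1 n, ((max (D - 1) 1 : ℕ) : ℝ) ^ (-(1 + s)) ≤
      ∑ D ∈ Finset.Icc 1 (n + 2), ((max (D - 1) 1 : ℕ) : ℝ) ^ (-(1 + s)) :=
    Finset.sum_le_sum_of_subset_of_nonneg (Finset.Icc_subset_Icc le_rfl (by omega))
      (fun D _ _ => hnn D)
  rw [hind] at h5
  linarith

private theorem ld_pow {α t δ θ s : ℝ} (_hα : 0 < α) (ht : 0 < t) (hδ : 0 < δ) (hθ : 0 < θ)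
    (hs : (1 + α) * θ = 1 + s) (M D : ℕ) :
    ld α t δ M D ^ θ ≤ ENNReal.ofReal (t ^ (-θ) * ((max (D - 1) 1 : ℕ) : ℝ) ^ (-(1 + s))) := by
  unfold ld
  split_ifs with h
  · have hw0 : 0 ≤ wq α D := Real.rpow_nonneg (Nat.cast_nonneg _) _
    have hm0 : (0 : ℝ) ≤ ((max (D - 1) 1 : ℕ) : ℝ) := Nat.cast_nonneg _
    rw [ENNReal.ofReal_rpow_of_nonneg (by positivity) hθ.le]
    apply ENNReal.ofReal_le_ofReal
    calc (wq α D / ((1 + δ) * t)) ^ θ ≤ (wq α D / t) ^ θ := by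
          apply Real.rpow_le_rpow (by positivity) _ hθ.le
          apply div_le_div_of_nonneg_left hw0 ht
          nlinarith
      _ = t ^ (-θ) * ((max (D - 1) 1 : ℕ) : ℝ) ^ (-(1 + s)) := by
          rw [Real.div_rpow hw0 ht.le, Real.rpow_neg ht.le]
          unfold wq
          rw [← Real.rpow_mul hm0]
          have h2 : -(1 + α) * θ = -(1 + s) := by rw [neg_mul, hs]
          rw [h2]
          field_simp
  · rw [ENNReal.zero_rpow_of_pos hθ]
    exact zero_le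

theorem pf_FCX (hPFM : Pool.Agent.H99.CE.T_PFM) (hLNK : Pool.Agent.H99.CE.T_LNK)
    (hSTR : Pool.Agent.H99.CE.T_STR) (hWPF : Pool.Agent.H99.CE.T_WPF) (hNAX : T_NAX) :
    T_FCX := by
  intro K hK0 ν _ e α σ c δ P n0 k B hα' _ hσ hθ1 he hc hδ hReg hk hkB hnB hP hQT h4 hMo
  have hα : 0 < α := by linarith
  have hB1 : 1 ≤ B := hk.trans hkB
  obtain ⟨hna, htb, -, -, hnaeq, hsg, hθ0, -⟩ :=
    hNAX e α σ c δ k B 1 hα' hσ he hc hδ hk hkB le_rfl
  have hsg0 : 0 < σ := hσ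
  refine ⟨4 * B * (P * ue e α σ c δ k B), by positivity, fun N => ?_⟩
  -- first moments
  have hf : ∀ n, ∑ b ∈ Finset.range n, ∫⁻ x, BX (w1 K B) B b x ^ te α σ ∂(iid ν) ≤
      ENNReal.ofReal (P * ue e α σ c δ k B) := by
    intro n
    unfold QTe at hQT
    rw [ENNReal.div_le_iff (by simpa using hna) ENNReal.ofReal_ne_top,
      ← ENNReal.ofReal_mul hP] at hQT
    exact (ENNReal.sum_le_tsum _).trans hQT
  have hl : ∀ n, ∑ D ∈ Finset.Icc 1 n, ld α (tb α c δ B) δ (N + 1) D ^ te α σ ≤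
      ENNReal.ofReal (tb α c δ B ^ (-te α σ) * (3 + 1 / σ)) := by
    intro n
    have htp : 0 ≤ tb α c δ B ^ (-te α σ) := Real.rpow_nonneg htb.le _
    calc ∑ D ∈ Finset.Icc 1 n, ld α (tb α c δ B) δ (N + 1) D ^ te α σ
        ≤ ∑ D ∈ Finset.Icc 1 n, ENNReal.ofReal (tb α c δ B ^ (-te α σ) *
          ((max (D - 1) 1 : ℕ) : ℝ) ^ (-(1 + σ))) :=
          Finset.sum_le_sum fun D _ => ld_pow hα htb hδ hθ0 hsg (N + 1) D
      _ = ENNReal.ofReal (tb α c δ B ^ (-te α σ) *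
          ∑ D ∈ Finset.Icc 1 n, ((max (D - 1) 1 : ℕ) : ℝ) ^ (-(1 + σ))) := by
          rw [Finset.mul_sum, ENNReal.ofReal_sum_of_nonneg]
          intro D _
          exact mul_nonneg htp (Real.rpow_nonneg (Nat.cast_nonneg _) _)
      _ ≤ _ := by
          apply ENNReal.ofReal_le_ofReal
          apply mul_le_mul_of_nonneg_left _ htp
          have := sum_gap hsg0 n
          linarith
  have hfl : ENNReal.ofReal (P * ue e α σ c δ k B) *
      ENNReal.ofReal (tb α c δ B ^ (-te α σ) * (3 + 1 / σ)) ≤ 4⁻¹ := by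
    rw [← ENNReal.ofReal_mul (by positivity)]
    have h5 : P * ue e α σ c δ k B * (tb α c δ B ^ (-te α σ) * (3 + 1 / σ)) =
        e * P * ((k : ℝ) / B) ^ σ * (3 + 1 / σ) := by
      rw [hnaeq, Real.rpow_neg htb.le]
      have : tb α c δ B ^ te α σ ≠ 0 := (Real.rpow_pos_of_pos htb _).ne'
      field_simp
    rw [h5]
    have h6 : (4 : ℝ≥0∞)⁻¹ = ENNReal.ofReal (1 / 4) := by
      rw [one_div, ENNReal.ofReal_inv_of_pos (by norm_num)]
      norm_num
    rw [h6]
    apply ENNReal.ofReal_le_ofReal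
    linarith
  have hmain := (hSTR K ν B (N + 1) (ld α (tb α c δ B) δ (N + 1)) (te α σ) hB1 (by omega) hθ0 hθ1.le
    (hLNK K α c δ n0 B (N + 1) hα hc hδ hReg hB1 hnB) _ _ ⊤ ⊤ hf hl hfl
    (fun _ => le_top) (fun _ => le_top)).1
  obtain ⟨hP1, hP2, -⟩ := hPFM.1 (w1 K ((N + 1) * B)) (hPFM.2 K |>.1 _)
  -- one pinned partition function
  have hbox : ∀ j r, r < B → ∀ x, PF (w1 K ((N + 1) * B)) (j * B + r) x ≤
      BX (w1 K ((N + 1) * B)) B j x := by
    intro j r hr x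
    unfold BX
    have h7 : PF (w1 K ((N + 1) * B)) (j * B + r) x =
        (if 0 ≤ j * B + r then PF (w1 K ((N + 1) * B)) (j * B + r - 0) (shift 0 x) else 0) := by
      rw [if_pos (Nat.zero_le _), Nat.sub_zero]
      rfl
    rw [h7]
    refine le_trans ?_ (Finset.single_le_sum (f := fun e => ∑ r ∈ Finset.range B,
      (if e ≤ j * B + r then PF (w1 K ((N + 1) * B)) (j * B + r - e) (shift e x) else 0))
      (fun _ _ => zero_le) (Finset.mem_range.2 (show 0 < B by omega)))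
    exact Finset.single_le_sum (f := fun r =>
      (if 0 ≤ j * B + r then PF (w1 K ((N + 1) * B)) (j * B + r - 0) (shift 0 x) else 0))
      (fun _ _ => zero_le) (Finset.mem_range.2 hr)
  have hsum : ∑ s ∈ Finset.range (N + 1),
      ∫⁻ x, PF (w1 K ((N + 1) * B)) s x ^ te α σ ∂(iid ν) ≤
      B * (2 * ENNReal.ofReal (P * ue e α σ c δ k B)) := by
    calc ∑ s ∈ Finset.range (N + 1), ∫⁻ x, PF (w1 K ((N + 1) * B)) s x ^ te α σ ∂(iid ν)
        ≤ ∑ s ∈ Finset.range ((N + 1) * B),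
          ∫⁻ x, PF (w1 K ((N + 1) * B)) s x ^ te α σ ∂(iid ν) := by
          apply Finset.sum_le_sum_of_subset
          intro s hs
          rw [Finset.mem_range] at hs ⊢
          exact hs.trans_le (Nat.le_mul_of_pos_right _ (by omega))
      _ = ∑ j ∈ Finset.range (N + 1), ∑ r ∈ Finset.range B,
          ∫⁻ x, PF (w1 K ((N + 1) * B)) (j * B + r) x ^ te α σ ∂(iid ν) := sum_cells _ _ _
      _ ≤ ∑ j ∈ Finset.range (N + 1), ∑ _r ∈ Finset.range B,
          ∫⁻ x, BX (w1 K ((N + 1) * B)) B j x ^ te α σ ∂(iid ν) := by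
          refine Finset.sum_le_sum fun j _ => Finset.sum_le_sum fun r hr => ?_
          refine lintegral_mono fun x => ?_
          exact ENNReal.rpow_le_rpow (hbox j r (Finset.mem_range.1 hr) x) hθ0.le
      _ = B * ∑ j ∈ Finset.range (N + 1),
          ∫⁻ x, BX (w1 K ((N + 1) * B)) B j x ^ te α σ ∂(iid ν) := by
          rw [Finset.mul_sum]
          refine Finset.sum_congr rfl fun j _ => ?_
          rw [Finset.sum_const, Finset.card_range, nsmul_eq_mul]
      _ ≤ _ := mul_le_mul_right (hmain (N + 1)) _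
  have hterm : ∀ s ∈ Finset.range (N + 1),
      ∫⁻ x, (PF (w1 K ((N + 1) * B)) s x * (1 + ex s N x)) ^ te α σ ∂(iid ν) ≤
      2 * ∫⁻ x, PF (w1 K ((N + 1) * B)) s x ^ te α σ ∂(iid ν) := by
    intro s hs
    have hsN : s ≤ N := by
      have := Finset.mem_range.1 hs
      omega
    have hmeas : Measurable fun x => PF (w1 K ((N + 1) * B)) s x ^ te α σ :=
      (hP1 s).1.pow_const _
    calc ∫⁻ x, (PF (w1 K ((N + 1) * B)) s x * (1 + ex s N x)) ^ te α σ ∂(iid ν)
        ≤ ∫⁻ x, (PF (w1 K ((N + 1) * B)) s x ^ te α σ +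
          PF (w1 K ((N + 1) * B)) s x ^ te α σ *
            (fun y => ex 0 (N - s) y ^ te α σ) (shift s x)) ∂(iid ν) := by
          refine lintegral_mono fun x => ?_
          have e1 : ex 0 (N - s) (shift s x) = ex s N x := by
            rw [ex_shift, zero_add, Nat.sub_add_cancel hsN]
          change (PF (w1 K ((N + 1) * B)) s x * (1 + ex s N x)) ^ te α σ ≤
            PF (w1 K ((N + 1) * B)) s x ^ te α σ +
            PF (w1 K ((N + 1) * B)) s x ^ te α σ * ex 0 (N - s) (shift s x) ^ te α σ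
          rw [e1, ENNReal.mul_rpow_of_nonneg _ _ hθ0.le]
          calc PF (w1 K ((N + 1) * B)) s x ^ te α σ * (1 + ex s N x) ^ te α σ
              ≤ PF (w1 K ((N + 1) * B)) s x ^ te α σ *
                (1 ^ te α σ + ex s N x ^ te α σ) :=
                mul_le_mul_right (ENNReal.rpow_add_le_add_rpow _ _ hθ0.le hθ1.le) _
            _ = _ := by rw [ENNReal.one_rpow, mul_add, mul_one]
      _ = ∫⁻ x, PF (w1 K ((N + 1) * B)) s x ^ te α σ ∂(iid ν) +
          ∫⁻ x, PF (w1 K ((N + 1) * B)) s x ^ te α σ *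
            (fun y => ex 0 (N - s) y ^ te α σ) (shift s x) ∂(iid ν) :=
          lintegral_add_left hmeas _
      _ = ∫⁻ x, PF (w1 K ((N + 1) * B)) s x ^ te α σ ∂(iid ν) +
          (∫⁻ x, PF (w1 K ((N + 1) * B)) s x ^ te α σ ∂(iid ν)) * (Mo ν (te α σ)) ^ (N - s) := by
          congr 1
          rw [lint_mul_shift ν (t := s) (f := fun x => PF (w1 K ((N + 1) * B)) s x ^ te α σ)
            (g := fun y => ex 0 (N - s) y ^ te α σ), lint_ex_rpow ν (te α σ) hθ0.le (N - s)]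
          · intro x x' h
            simp only
            rw [(hP1 s).2.1 x x' h]
          · exact hmeas
          · exact (measurable_ex 0 (N - s)).pow_const _
      _ ≤ ∫⁻ x, PF (w1 K ((N + 1) * B)) s x ^ te α σ ∂(iid ν) +
          (∫⁻ x, PF (w1 K ((N + 1) * B)) s x ^ te α σ ∂(iid ν)) * 1 := by
          gcongr
          exact pow_le_one₀ zero_le hMo
      _ = 2 * ∫⁻ x, PF (w1 K ((N + 1) * B)) s x ^ te α σ ∂(iid ν) := by
          rw [mul_one, two_mul]
  have hNB : N ≤ (N + 1) * B := by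
    calc N ≤ N + 1 := Nat.le_succ N
      _ ≤ (N + 1) * B := Nat.le_mul_of_pos_right _ (by omega)
  calc ∫⁻ x, Wn K N x ^ te α σ ∂(iid ν)
      ≤ ∫⁻ x, ∑ s ∈ Finset.range (N + 1),
        (PF (w1 K ((N + 1) * B)) s x * (1 + ex s N x)) ^ te α σ ∂(iid ν) := by
        refine lintegral_mono fun x => ?_
        exact (ENNReal.rpow_le_rpow (hWPF K hK0 N ((N + 1) * B) hNB x) hθ0.le).trans
          (rpow_sum_le _ _ _ hθ0 hθ1.le)
    _ = ∑ s ∈ Finset.range (N + 1),
        ∫⁻ x, (PF (w1 K ((N + 1) * B)) s x * (1 + ex s N x)) ^ te α σ ∂(iid ν) := by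
        apply lintegral_finsetSum
        intro s _
        exact (((hP1 s).1.mul (measurable_const.add (measurable_ex s N))).pow_const _)
    _ ≤ ∑ s ∈ Finset.range (N + 1),
        2 * ∫⁻ x, PF (w1 K ((N + 1) * B)) s x ^ te α σ ∂(iid ν) := Finset.sum_le_sum hterm
    _ = 2 * ∑ s ∈ Finset.range (N + 1),
        ∫⁻ x, PF (w1 K ((N + 1) * B)) s x ^ te α σ ∂(iid ν) := by rw [Finset.mul_sum]
    _ ≤ 2 * (B * (2 * ENNReal.ofReal (P * ue e α σ c δ k B))) := mul_le_mul_right hsum _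
    _ = ENNReal.ofReal (4 * B * (P * ue e α σ c δ k B)) := by
        rw [ENNReal.ofReal_mul (p := 4 * (B : ℝ)) (by positivity),
          ENNReal.ofReal_mul (p := (4 : ℝ)) (by norm_num), ENNReal.ofReal_natCast]
        have : ENNReal.ofReal 4 = 2 * 2 := by
          rw [← ENNReal.ofReal_ofNat 2, ← ENNReal.ofReal_mul (by norm_num)]
          norm_num
        rw [this]
        ring

end Pool.Agent.H85.EX
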