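import Pool.Agent.H98.EX.BTargets
import Pool.Agent.H98.SLN.ULM
import Pool.Agent.H98.SLN.INR
import Pool.Agent.H88.SLN.UTX

/-!
# Row NTM of the board exa_modules: the moments of the neutral stretches
-/

set_option autoImplicit false

open MeasureTheory ProbabilityTheory Filter Topology
open scoped ENNReal
open Pool.Agent.H95 Pool.Agent.H95.Cop
open Pool.Agent.H55.CG (Mo)
open Pool.Agent.H99.CE (NX w0)
open Pool.Agent.H98.SLN (RG TS kt VB)
open Pool.Agent.H98.EX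

namespace Pool.Agent.H85.EX

/-- the renewal function is monotone in the weights -/
lemma uu_mono {k k' : ℕ → ℝ} (hk : ∀ n, 0 ≤ k n) (h : ∀ n, k n ≤ k' n) (n : ℕ) :
    uu k n ≤ uu k' n := by
  induction n using Nat.strong_induction_on with
  | _ n ih =>
    cases n with
    | zero => rw [uu_zero, uu_zero]
    | succ n =>
      rw [uu_succ, uu_succ]
      refine Finset.sum_le_sum fun j _ => ?_
      exact mul_le_mul (h _) (ih _ (by omega)) (uu_nonneg k hk _) ((hk _).trans (h _))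

/-- the neutral mass is monotone -/
lemma VB_mono (K : PMF ℕ) (k : ℕ) {τ τ' : ℝ} (h0 : 0 ≤ τ) (h : τ ≤ τ') (b : ℕ) :
    VB K k τ b ≤ VB K k τ' b := by
  have hkt : ∀ n, 0 ≤ kt K k τ n := by
    intro n
    unfold kt
    split_ifs
    · have : 0 ≤ kk K n := ENNReal.toReal_nonneg
      positivity
    · exact le_rfl
  have hm : ∀ n, kt K k τ n ≤ kt K k τ' n := by
    intro n
    unfold kt
    split_ifs
    · have h1 : 0 ≤ kk K n := ENNReal.toReal_nonneg
      apply mul_le_mul_of_nonneg_left _ h1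
      have h2 : τ * n ≤ τ' * n := mul_le_mul_of_nonneg_right h (Nat.cast_nonneg n)
      have h3 : 0 ≤ τ * n := mul_nonneg h0 (Nat.cast_nonneg n)
      have h4 := pow_le_pow_left₀ h3 h2 2
      linarith
    · exact le_rfl
  unfold VB
  refine Finset.sum_le_sum fun e _ => Finset.sum_le_sum fun r _ => ?_
  split_ifs
  · exact uu_mono hkt hm _
  · exact le_rfl

/-- roots of exponential bounds -/
lemma root_le {x y : ℝ} {k : ℕ} (hk : 1 ≤ k) (h : x ^ k ≤ Real.exp y) :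
    x ≤ Real.exp (y / k) := by
  have hk0 : (0 : ℝ) < k := by exact_mod_cast hk
  refine le_of_pow_le_pow_left₀ (by omega : k ≠ 0) (Real.exp_pos _).le ?_
  rw [← Real.exp_nat_mul]
  have e : (k : ℝ) * (y / k) = y := by field_simp
  rw [e]
  exact h

theorem pf_NTM (hPFM : Pool.Agent.H99.CE.T_PFM) (hMSX : T_MSX) : T_NTM := by
  intro K ν α c δ r ϑ ε τ ω s k q hBC θ hθ1 hθ2 p r' b
  have hHOL := Pool.Agent.H98.SLN.pf_HOL Pool.Agent.H98.SLN.pf_EXM
  have hUTX := Pool.Agent.H88.SLN.pf_UTX hPFM Pool.Agent.H98.SLN.pf_EXM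
  have := hBC.eg.prob
  have hϑ0 := hBC.ϑ0
  have hϑ1 := hBC.ϑ1
  have hτ0 := hBC.τ0
  have hε0 := hBC.ε0
  have hδ0 := hBC.rx.rg.δ0
  have hk1 : 1 ≤ k := by
    rcases Nat.eq_zero_or_pos k with h | h
    · have h2 := hBC.kϑ
      rw [h, Nat.cast_zero, mul_zero] at h2
      norm_num at h2
    · exact h
  have hkr : (0 : ℝ) < k := by exact_mod_cast hk1
  have hα : 0 < 1 + α := by
    have h1 := hBC.rx.rg.α0
    have h2 := hBC.rx.rg.δ1
    norm_num at h2
    linarith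
  -- the size of `ε`
  have hε1 : ε ≤ 1 / 4 := by
    have h1 := (abs_le.1 hBC.σω).1
    have h2 := hBC.t2
    have h3 : te α s ≤ te α (2 * s) := by
      unfold te
      apply div_le_div_of_nonneg_right _ hα.le
      linarith [hBC.s0]
    have h4 := hBC.ω1
    linarith
  have hTS : 0 < TS K k := by
    have h1 := hBC.rx.rg.r1
    have h2 : 0 < c * (k : ℝ) ^ (1 - α) :=
      mul_pos hBC.rx.rg.c0 (Real.rpow_pos_of_pos hkr _)
    have h3 : 0 < 4 * δ * TS K k := lt_of_lt_of_le h2 h1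
    exact pos_of_mul_pos_right h3 (by positivity)
  -- the three moments
  set g : ℝ := 3 / 4 + ε - θ with hg
  have hg0 : 0 ≤ g := by rw [hg]; linarith
  have hg1 : g ≤ 1 := by rw [hg]; linarith
  set mm : ℝ := ϑ * ((1 + θ ^ 2) / 2 - θ * (3 / 4 + ε)) with hmm
  have hMo : ∀ u, 0 ≤ Mo ν u := fun u => integral_nonneg fun z => (Real.exp_pos _).le
  have hMa : Mo ν (-(1 - θ) / 2) ≤ Real.exp ((mm + τ) / k) * Real.exp (ϑ * g / k) := by
    have h1 := hBC.eg.up (-(1 - θ) / 2) (by rw [abs_le]; constructor <;> linarith)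
    have h2 := root_le hk1 h1
    refine h2.trans (le_of_eq ?_)
    rw [← Real.exp_add]
    congr 1
    rw [← add_div]
    congr 1
    rw [hmm, hg]
    ring
  have hMb : Mo ν ((1 + θ) / 2) ≤ Real.exp ((mm + τ) / k) * Real.exp (-(ϑ * g / k)) := by
    have h1 := hBC.eg.up ((1 + θ) / 2) (by rw [abs_le]; constructor <;> linarith)
    have h2 := root_le hk1 h1
    refine h2.trans (le_of_eq ?_)
    rw [← Real.exp_add]
    congr 1
    rw [← sub_eq_add_neg, ← sub_div]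
    congr 1
    rw [hmm, hg]
    ring
  have hMc := hBC.eg.up (θ / 2) (by rw [abs_le]; constructor <;> linarith)
  -- the mean
  have hτ1 : 0 ≤ ϑ * g / k := by positivity
  have hτk : ϑ * g / k * k ≤ 1 := by
    rw [div_mul_cancel₀ _ hkr.ne']
    have h1 : ϑ * g ≤ ϑ * 1 := mul_le_mul_of_nonneg_left hg1 hϑ0.le
    linarith
  have hmeas : Measurable (NX (w0 K k k) k p r' b) :=
    ((hPFM.1 _ ((hPFM.2 K).2 k k)).2.2 k p r' b).1
  have h1 := hHOL ν hBC.eg.exp θ ((b + 1) * k) (NX (w0 K k k) k p r' b) (by linarith)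
    (by linarith) hmeas
  have h2 := hUTX K ν hBC.eg.exp k θ (Real.exp ((mm + τ) / k)) (ϑ * g / k) hk1
    (Real.exp_pos _) hτ1 hτk hMa hMb p r' b
  have hV : VB K k (ϑ * g / k) b ≤
      Real.exp (64 * δ * (b + 1)) * ((1 + ϑ) * (k : ℝ) ^ 2 / TS K k) := by
    refine (VB_mono K k hτ1 ?_ b).trans
      (hMSX K α c δ r ϑ k q hBC.rx hϑ0 hϑ1 hBC.rϑ hBC.δϑ hBC.kϑ b)
    apply div_le_div_of_nonneg_right _ hkr.le
    have h3 : ϑ * g ≤ ϑ * 1 := mul_le_mul_of_nonneg_left hg1 hϑ0.le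
    linarith
  have hT0 : 0 ≤ (1 + ϑ) * (k : ℝ) ^ 2 / TS K k := by positivity
  have hθ0 : 0 < θ := by linarith
  have hθ3 : 0 ≤ 1 - θ := by linarith
  -- the rate per cell
  have hdk : (Real.exp ((mm + τ) / k) ^ k * Real.exp (64 * δ)) ^ θ *
      (Mo ν (θ / 2) ^ k) ^ (1 - θ) ≤ Real.exp (-(kap ϑ ε θ τ δ)) := by
    have e1 : Real.exp ((mm + τ) / k) ^ k = Real.exp (mm + τ) := by
      rw [← Real.exp_nat_mul]
      congr 1
      field_simp
    have h5 : (Mo ν (θ / 2) ^ k) ^ (1 - θ) ≤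
        Real.exp ((ϑ * (2 * (θ / 2) ^ 2 - 2 * (θ / 2) * (3 / 4 + ε)) + τ) * (1 - θ)) := by
      rw [Real.exp_mul]
      exact Real.rpow_le_rpow (pow_nonneg (hMo _) _) hMc hθ3
    calc (Real.exp ((mm + τ) / k) ^ k * Real.exp (64 * δ)) ^ θ * (Mo ν (θ / 2) ^ k) ^ (1 - θ)
        ≤ (Real.exp ((mm + τ) / k) ^ k * Real.exp (64 * δ)) ^ θ *
          Real.exp ((ϑ * (2 * (θ / 2) ^ 2 - 2 * (θ / 2) * (3 / 4 + ε)) + τ) * (1 - θ)) :=
          mul_le_mul_of_nonneg_left h5 (Real.rpow_nonneg (by positivity) _)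
      _ = Real.exp ((mm + τ + 64 * δ) * θ +
          (ϑ * (2 * (θ / 2) ^ 2 - 2 * (θ / 2) * (3 / 4 + ε)) + τ) * (1 - θ)) := by
          rw [e1, ← Real.exp_add, ← Real.exp_mul, ← Real.exp_add]
      _ ≤ _ := by
          apply Real.exp_le_exp.2
          have e2 : (mm + τ + 64 * δ) * θ +
              (ϑ * (2 * (θ / 2) ^ 2 - 2 * (θ / 2) * (3 / 4 + ε)) + τ) * (1 - θ) =
              -(ϑ * θ * (1 / 4 + ε - θ / 2)) + τ + 64 * δ * θ := by
            rw [hmm]
            ring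
          rw [e2]
          unfold kap
          have h6 : 64 * δ * θ ≤ 64 * δ * 1 :=
            mul_le_mul_of_nonneg_left (by linarith) (by positivity)
          linarith
  have h4 := Pool.Agent.H98.SLN.ulm_real (Real.exp ((mm + τ) / k)) δ (kap ϑ ε θ τ δ) θ
    (VB K k (ϑ * g / k) b) ((1 + ϑ) * (k : ℝ) ^ 2 / TS K k) (Mo ν (θ / 2)) k b
    (Real.exp_pos _) hθ0 (hMo _) hV hT0 hdk
  have hfin : (Real.exp 2 * ((1 + ϑ) * (k : ℝ) ^ 2 / TS K k)) ^ θ *
      Real.exp (-(kap ϑ ε θ τ δ * ((b : ℝ) + 1))) ≤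
      (Real.exp 2 * VH K k ϑ) ^ θ * Real.exp (-(kap ϑ ε θ τ δ * ((b : ℝ) + 1))) := by
    apply mul_le_mul_of_nonneg_right _ (Real.exp_pos _).le
    apply Real.rpow_le_rpow (by positivity) _ hθ0.le
    apply mul_le_mul_of_nonneg_left _ (Real.exp_pos _).le
    unfold VH
    apply div_le_div_of_nonneg_right _ hTS.le
    apply mul_le_mul_of_nonneg_right _ (by positivity)
    linarith
  calc ∫⁻ x, NX (w0 K k k) k p r' b x ^ θ ∂(iid ν)
      ≤ _ := h1
    _ ≤ (ENNReal.ofReal (Real.exp ((mm + τ) / k) ^ ((b + 1) * k) * Real.exp 2 *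
          VB K k (ϑ * g / k) b)) ^ θ *
        ENNReal.ofReal (Mo ν (θ / 2) ^ ((b + 1) * k)) ^ (1 - θ) := by
        gcongr
    _ = ENNReal.ofReal ((max (Real.exp ((mm + τ) / k) ^ ((b + 1) * k) * Real.exp 2 *
          VB K k (ϑ * g / k) b) 0) ^ θ * (Mo ν (θ / 2) ^ ((b + 1) * k)) ^ (1 - θ)) := by
        rw [ENNReal.ofReal_mul (Real.rpow_nonneg (le_max_right _ _) _),
          ← ENNReal.ofReal_rpow_of_nonneg (le_max_right _ _) hθ0.le,
          ← ENNReal.ofReal_rpow_of_nonneg (pow_nonneg (hMo _) _) hθ3]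
        congr 2
        rcases le_total 0 (Real.exp ((mm + τ) / k) ^ ((b + 1) * k) * Real.exp 2 *
          VB K k (ϑ * g / k) b) with h | h
        · rw [max_eq_left h]
        · rw [max_eq_right h, ENNReal.ofReal_of_nonpos h, ENNReal.ofReal_zero]
    _ ≤ _ := ENNReal.ofReal_le_ofReal (h4.trans hfin)

end Pool.Agent.H85.EX
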